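import Pool.Agent.P8H82.JG.Stm

set_option autoImplicit false

/-!
# Project JG, packages RAD and REPC: the kernel of an element and the repeated part
-/

namespace Pool.Agent.P8H56.JG

open NumberField IsDedekindDomain Pool.Agent.P8H82.JG UniqueFactorizationMonoid

variable {K : Type} [Field K] [NumberField K]

/-- the primes containing `x` -/
def pr (x : 𝓞 K) : Set (HeightOneSpectrum (𝓞 K)) := {P | x ∈ P.asIdeal}

theorem pr_fin {x : 𝓞 K} (hx : x ≠ 0) : (pr x).Finite := by
  have h := Ideal.finite_factors (R := 𝓞 K) (I := Ideal.span {x}) (by simpa using hx)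
  refine h.subset ?_
  intro P hP
  exact Ideal.dvd_span_singleton.mpr hP

theorem radI_eq {x : 𝓞 K} (hx : x ≠ 0) : radI x = ∏ P ∈ (pr_fin hx).toFinset, P.asIdeal := by
  unfold radI
  exact finprod_mem_eq_finite_toFinset_prod (fun P : HeightOneSpectrum (𝓞 K) => P.asIdeal)
    (pr_fin hx)

theorem radI_ne {x : 𝓞 K} (hx : x ≠ 0) : radI x ≠ ⊥ := by
  rw [radI_eq hx]
  exact Finset.prod_ne_zero_iff.mpr fun P _ => P.ne_bot

theorem le_ord_iff (P : HeightOneSpectrum (𝓞 K)) {I : Ideal (𝓞 K)} (hI : I ≠ ⊥) (n : ℕ) :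
    n ≤ ord P I ↔ I ≤ P.asIdeal ^ n := by
  classical
  rw [← Ideal.dvd_iff_le, pow_dvd_iff_le_emultiplicity,
    emultiplicity_eq_count_normalizedFactors P.irreducible hI]
  simp [ord]

theorem ord_mul (P : HeightOneSpectrum (𝓞 K)) {I J : Ideal (𝓞 K)} (hI : I ≠ ⊥) (hJ : J ≠ ⊥) :
    ord P (I * J) = ord P I + ord P J := by
  unfold ord
  rw [normalizedFactors_mul hI hJ, Multiset.count_add]

theorem ord_one (P : HeightOneSpectrum (𝓞 K)) : ord P (1 : Ideal (𝓞 K)) = 0 := by
  unfold ord
  rw [normalizedFactors_one, Multiset.count_zero]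

theorem ord_prime (P Q : HeightOneSpectrum (𝓞 K)) [Decidable (P = Q)] :
    ord P Q.asIdeal = if P = Q then 1 else 0 := by
  unfold ord
  rw [normalizedFactors_irreducible Q.irreducible, Multiset.count_singleton]
  by_cases h : P = Q
  · subst h
    simp
  · have : P.asIdeal ≠ Q.asIdeal := fun h' => h (HeightOneSpectrum.ext h')
    simp [h, this]

theorem ord_prod (P : HeightOneSpectrum (𝓞 K)) (s : Finset (HeightOneSpectrum (𝓞 K))) :
    (∏ Q ∈ s, Q.asIdeal) ≠ ⊥ ∧
    ord P (∏ Q ∈ s, Q.asIdeal) = open Classical in if P ∈ s then 1 else 0 := by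
  classical
  refine ⟨Finset.prod_ne_zero_iff.mpr fun P _ => P.ne_bot, ?_⟩
  induction s using Finset.induction_on with
  | empty =>
    rw [Finset.prod_empty, ord_one]
    simp
  | insert Q s hQ ih =>
    rw [Finset.prod_insert hQ, ord_mul P Q.ne_bot
      (Finset.prod_ne_zero_iff.mpr fun P _ => P.ne_bot), ih, ord_prime]
    by_cases h : P = Q
    · subst h
      simp [hQ]
    · simp [h]

theorem ord_radI (P : HeightOneSpectrum (𝓞 K)) {x : 𝓞 K} (hx : x ≠ 0) :
    ord P (radI x) = open Classical in if x ∈ P.asIdeal then 1 else 0 := by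
  classical
  rw [radI_eq hx, (ord_prod P _).2]
  have : P ∈ (pr_fin hx).toFinset ↔ x ∈ P.asIdeal := by
    rw [Set.Finite.mem_toFinset]
    rfl
  simp [this]

theorem ord_ext {I J : Ideal (𝓞 K)} (hI : I ≠ ⊥) (hJ : J ≠ ⊥)
    (h : ∀ P : HeightOneSpectrum (𝓞 K), ord P I = ord P J) : I = J := by
  classical
  refine associated_iff_eq.mp ((associated_iff_normalizedFactors_eq_normalizedFactors hI hJ).mpr ?_)
  ext p
  by_cases hp : Prime p
  · have h1 := h ⟨p, Ideal.isPrime_of_prime hp, hp.ne_zero⟩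
    unfold ord at h1
    convert h1
  · rw [Multiset.count_eq_zero_of_notMem, Multiset.count_eq_zero_of_notMem]
    · exact fun h' => hp (prime_of_normalized_factor p h')
    · exact fun h' => hp (prime_of_normalized_factor p h')

theorem mem_pow_iff (P : HeightOneSpectrum (𝓞 K)) {x : 𝓞 K} (hx : x ≠ 0) (n : ℕ) :
    x ∈ P.asIdeal ^ n ↔ n ≤ ord P (Ideal.span {x}) := by
  rw [le_ord_iff P (by simpa using hx), Ideal.span_singleton_le_iff_mem]

/-- the local conditions and the repeated part -/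
theorem repc : S_REPC := by
  intro K _ _ a b w hw hx
  set x := a * b * (a + b) with hxdef
  have hsx : Ideal.span {x} ≠ ⊥ := by simpa using hx
  have ha : a ≠ 0 := fun h => hx (by rw [hxdef, h]; ring)
  -- the two conditions at one prime
  have key : ∀ P : HeightOneSpectrum (𝓞 K),
      ((x ∉ P.asIdeal ^ (ord P w + 2) ∧ (ord P w ≠ 0 → x ∈ P.asIdeal ^ (ord P w + 1))) ↔
        ord P (w * radI x) = ord P (Ideal.span {x})) := by
    intro P
    classical
    rw [ord_mul P hw (radI_ne hx), ord_radI P hx, mem_pow_iff P hx, mem_pow_iff P hx]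
    have h1 : x ∈ P.asIdeal ↔ 1 ≤ ord P (Ideal.span {x}) := by
      rw [← mem_pow_iff P hx, pow_one]
    by_cases h : x ∈ P.asIdeal
    · have h2 := h1.mp h
      simp only [h, if_true]
      omega
    · have h2 : ¬ 1 ≤ ord P (Ideal.span {x}) := fun h' => h (h1.mpr h')
      simp only [h, if_false]
      omega
  constructor
  · intro H
    constructor
    · by_contra hne
      obtain ⟨M, hM, hle⟩ := Ideal.exists_le_maximal _ hne
      have haM : a ∈ M := hle (Ideal.subset_span (by simp))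
      have hbM : b ∈ M := hle (Ideal.subset_span (by simp))
      have hMb : M ≠ ⊥ := by
        rintro rfl
        exact ha (by simpa using haM)
      exact (H ⟨M, hM.isPrime, hMb⟩).1 ⟨haM, hbM⟩
    · exact ord_ext (mul_ne_zero hw (radI_ne hx)) hsx fun P => (key P).mp (H P).2
  · rintro ⟨hcop, heq⟩ P
    refine ⟨?_, ?_⟩
    · rintro ⟨haP, hbP⟩
      apply P.isPrime.ne_top
      rw [eq_top_iff, ← hcop, Ideal.span_le]
      intro y hy
      simp only [Set.mem_insert_iff, Set.mem_singleton_iff] at hy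
      rcases hy with rfl | rfl
      · exact haP
      · exact hbP
    · exact (key P).mpr (by rw [heq])

/-- the kernel divides the element -/
theorem radI_dvd {x : 𝓞 K} (hx : x ≠ 0) : radI x ∣ Ideal.span {x} := by
  classical
  rw [radI_eq hx]
  have hinj : Set.InjOn (fun P : HeightOneSpectrum (𝓞 K) => P.asIdeal)
      ((pr_fin hx).toFinset : Set (HeightOneSpectrum (𝓞 K))) :=
    fun P _ Q _ h => HeightOneSpectrum.ext h
  rw [← Finset.prod_image (f := fun I : Ideal (𝓞 K) => I) hinj]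
  refine Finset.prod_primes_dvd _ ?_ ?_
  · intro I hI
    obtain ⟨P, -, rfl⟩ := Finset.mem_image.mp hI
    exact P.prime
  · intro I hI
    obtain ⟨P, hP, rfl⟩ := Finset.mem_image.mp hI
    rw [Set.Finite.mem_toFinset] at hP
    exact Ideal.dvd_span_singleton.mpr hP

theorem absNorm_radI {x : 𝓞 K} (hx : x ≠ 0) : (Ideal.absNorm (radI x) : ℝ) =
    ∏ P ∈ (pr_fin hx).toFinset, (Ideal.absNorm P.asIdeal : ℝ) := by
  rw [radI_eq hx, map_prod]
  push_cast
  rfl

theorem one_le_absNorm (P : HeightOneSpectrum (𝓞 K)) : (1 : ℝ) ≤ Ideal.absNorm P.asIdeal := by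
  have h : Ideal.absNorm P.asIdeal ≠ 0 := by
    rw [Ne, Ideal.absNorm_eq_zero_iff]
    exact P.ne_bot
  exact_mod_cast Nat.one_le_iff_ne_zero.mpr h

theorem rad_eq (t : 𝓞 K × 𝓞 K × 𝓞 K) (hx : t.1 * t.2.1 * t.2.2 ≠ 0) :
    rad t = ∏ P ∈ (pr_fin hx).toFinset, (Ideal.absNorm P.asIdeal : ℝ) := by
  unfold rad
  exact finprod_mem_eq_finite_toFinset_prod
    (fun P : HeightOneSpectrum (𝓞 K) => (Ideal.absNorm P.asIdeal : ℝ)) (pr_fin hx)

/-- the norm of the kernel, existence and uniqueness of the repeated part -/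
theorem rad_main : S_RAD := by
  intro K _ _ t ht
  set x := t.1 * t.2.1 * t.2.2 with hxdef
  have hx : x ≠ 0 := ht.ne
  have h1 : (Ideal.absNorm (radI x) : ℝ) = rad t := by
    rw [absNorm_radI hx, rad_eq t hx]
  have hrep : ∀ w : Ideal (𝓞 K), Rep w t ↔ w * radI x = Ideal.span {x} := fun w => Iff.rfl
  refine ⟨h1, ?_, ?_, ?_, ?_⟩
  · rw [rad_eq t hx]
    exact Finset.prod_induction (fun P : HeightOneSpectrum (𝓞 K) => (Ideal.absNorm P.asIdeal : ℝ))
      (fun y => 1 ≤ y) (fun a b ha hb => one_le_mul_of_one_le_of_one_le ha hb) le_rfl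
      fun P _ => one_le_absNorm P
  · obtain ⟨w, hw⟩ := radI_dvd hx
    have hr : w * radI x = Ideal.span {x} := by rw [hw, mul_comm]
    refine ⟨w, ?_, hr⟩
    rintro rfl
    rw [Submodule.bot_mul] at hr
    exact hx (by simpa using hr.symm)
  · intro w w' hw hw'
    exact mul_right_cancel₀ (radI_ne hx) (((hrep w).mp hw).trans ((hrep w').mp hw').symm)
  · intro w hw
    have hw' := (hrep w).mp hw
    refine ⟨?_, ?_⟩
    · rintro rfl
      rw [Submodule.bot_mul] at hw'
      exact hx (by simpa using hw'.symm)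
    · rw [← h1, ← hw', map_mul]
      push_cast
      rfl

end Pool.Agent.P8H56.JG
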