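import Pool.Agent.P8H56.JG.Rad

set_option autoImplicit false

/-!
# Project JG, package PTS: from triples to pairs
-/

namespace Pool.Agent.P8H56.JG

open NumberField IsDedekindDomain Pool.Agent.P8H82.JG

variable {K : Type} [Field K] [NumberField K]

theorem radI_unit (v : (𝓞 K)ˣ) (x : 𝓞 K) : radI ((v : 𝓞 K) * x) = radI x := by
  have h : ∀ P : HeightOneSpectrum (𝓞 K), (v : 𝓞 K) * x ∈ P.asIdeal ↔ x ∈ P.asIdeal :=
    fun P => Ideal.unit_mul_mem_iff_mem P.asIdeal v.isUnit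
  unfold radI
  simp only [h]

theorem span_unit (v : (𝓞 K)ˣ) (x : 𝓞 K) :
    Ideal.span {(v : 𝓞 K) * x} = (Ideal.span {x} : Ideal (𝓞 K)) := by
  rw [mul_comm]
  exact Ideal.span_singleton_mul_right_unit v.isUnit x

/-- the form of a pair -/
def yy (q : 𝓞 K × 𝓞 K) : 𝓞 K := q.1 * q.2 * (q.1 + q.2)

theorem emb_ne (σ : K →+* ℝ) {b : 𝓞 K} (hb : b ≠ 0) : σ b ≠ 0 := by
  rw [Ne, map_eq_zero]
  exact_mod_cast hb

theorem yy_unit (v : (𝓞 K)ˣ) {t : 𝓞 K × 𝓞 K × 𝓞 K} (hs : t.1 + t.2.1 + t.2.2 = 0) :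
    yy ((v : 𝓞 K) * t.1, (v : 𝓞 K) * t.2.1) =
      ((-(v ^ 3) : (𝓞 K)ˣ) : 𝓞 K) * (t.1 * t.2.1 * t.2.2) := by
  have h : t.2.2 = -(t.1 + t.2.1) := by linear_combination hs
  unfold yy
  push_cast
  rw [h]
  ring

/-- the property of the pairs, unfolded -/
def GG (σ τ : K →+* ℝ) (w : Ideal (𝓞 K)) (M : ℝ) (Q : Set (ℝ × ℝ)) (q : 𝓞 K × 𝓞 K) : Prop :=
  yy q ≠ 0 ∧ Ideal.span {q.1, q.2} = ⊤ ∧ w * radI (yy q) = Ideal.span {yy q} ∧
    |τ q.2| ≤ |σ q.2| ∧ |σ q.2| < (3 + √5) / 2 * |τ q.2| ∧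
    (σ q.1 / σ q.2, τ q.1 / τ q.2) ∈ Q ∧ |σ (yy q) * τ (yy q)| ≤ M

theorem reg_iff (σ τ : K →+* ℝ) {l : ℝ} (hl : 0 < l) (Q : Set (ℝ × ℝ)) (q : 𝓞 K × 𝓞 K)
    (hy : yy q ≠ 0) : emb σ τ l q.1 q.2 ∈ Reg Q ↔
      (|τ q.2| ≤ |σ q.2| ∧ |σ q.2| < (3 + √5) / 2 * |τ q.2| ∧
        (σ q.1 / σ q.2, τ q.1 / τ q.2) ∈ Q ∧ |σ (yy q) * τ (yy q)| ≤ l ^ 6) := by
  have hb : q.2 ≠ 0 := by
    intro h
    apply hy
    unfold yy
    rw [h]
    ring
  have hσ := emb_ne σ hb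
  have hτ := emb_ne τ hb
  have hl0 := hl.ne'
  have e1 : σ q.1 / l / (σ q.2 / l) = σ q.1 / σ q.2 := by field_simp
  have e2 : τ q.1 / l / (τ q.2 / l) = τ q.1 / τ q.2 := by field_simp
  have e3 : |σ q.1 / l * (σ q.2 / l) * (σ q.1 / l + σ q.2 / l)| *
      |τ q.1 / l * (τ q.2 / l) * (τ q.1 / l + τ q.2 / l)| = |σ (yy q) * τ (yy q)| / l ^ 6 := by
    rw [← abs_mul, show l ^ 6 = |l ^ 6| by rw [abs_of_pos (by positivity)], ← abs_div]
    congr 1
    unfold yy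
    push_cast
    rw [map_mul, map_mul, map_mul, map_mul, map_add, map_add]
    field_simp
  unfold emb Reg
  simp only [Set.mem_setOf_eq, e1, e2, e3]
  rw [abs_div, abs_div, abs_of_pos hl, div_le_div_iff_of_pos_right hl, mul_div,
    div_lt_div_iff_of_pos_right hl, div_le_one (by positivity)]
  constructor
  · rintro ⟨-, h1, h2, h3, h4⟩
    exact ⟨h1, h2, h3, h4⟩
  · rintro ⟨h1, h2, h3, h4⟩
    exact ⟨div_ne_zero hτ hl0, h1, h2, h3, h4⟩

theorem set_iff (hrepc : S_REPC) (σ τ : K →+* ℝ) {l : ℝ} (hl : 0 < l) {w : Ideal (𝓞 K)}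
    (hw : w ≠ ⊥) (Q : Set (ℝ × ℝ)) (q : 𝓞 K × 𝓞 K) :
    (q.1 * q.2 * (q.1 + q.2) ≠ 0 ∧ (∀ P, Cnd P (ord P w) q.1 q.2) ∧
      emb σ τ l q.1 q.2 ∈ Reg Q) ↔ GG σ τ w (l ^ 6) Q q := by
  constructor
  · rintro ⟨h1, h2, h3⟩
    obtain ⟨h4, h5⟩ := (hrepc K q.1 q.2 w hw h1).mp h2
    exact ⟨h1, h4, h5, (reg_iff σ τ hl Q q h1).mp h3⟩
  · rintro ⟨h1, h4, h5, h6⟩
    exact ⟨h1, (hrepc K q.1 q.2 w hw h1).mpr ⟨h4, h5⟩, (reg_iff σ τ hl Q q h1).mpr h6⟩

/-- the sign -/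
def sg (e : Bool) : (𝓞 K)ˣ := if e then 1 else -1

/-- the map from triples with a sign to pairs -/
def ff (U : 𝓞 K → (𝓞 K)ˣ) (z : (𝓞 K × 𝓞 K × 𝓞 K) × Bool) : 𝓞 K × 𝓞 K :=
  (((sg z.2 * U z.1.2.1 : (𝓞 K)ˣ) : 𝓞 K) * z.1.1,
    ((sg z.2 * U z.1.2.1 : (𝓞 K)ˣ) : 𝓞 K) * z.1.2.1)

theorem abs_sg (σ : K →+* ℝ) (e : Bool) (b : 𝓞 K) :
    |σ (((sg e : (𝓞 K)ˣ) : 𝓞 K) * b : 𝓞 K)| = |σ b| := by
  unfold sg
  cases e <;> simp

/-- the package PTS -/
theorem pts (hnrm : S_NRM) (hcone : S_CONE) (hrepc : S_REPC) (hrad : S_RAD) : S_PTS := by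
  intro K _ _ σ τ hG X E w Q hX hE hw
  have hN : (0 : ℝ) < Ideal.absNorm w := by
    have : Ideal.absNorm w ≠ 0 := by
      rw [Ne, Ideal.absNorm_eq_zero_iff]
      exact hw
    exact_mod_cast Nat.pos_of_ne_zero this
  have hX0 : 0 < X := by linarith
  set l : ℝ := ((Ideal.absNorm w : ℝ) * X) ^ ((1 : ℝ) / 6) with hl
  have hl0 : 0 < l := Real.rpow_pos_of_pos (by positivity) _
  have hl6 : l ^ 6 = (Ideal.absNorm w : ℝ) * X := by
    rw [hl, ← Real.rpow_natCast, ← Real.rpow_mul (by positivity)]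
    norm_num
  have hset : {q : 𝓞 K × 𝓞 K | q.1 * q.2 * (q.1 + q.2) ≠ 0 ∧ (∀ P, Cnd P (ord P w) q.1 q.2) ∧
      emb σ τ l q.1 q.2 ∈ Reg Q} = {q | GG σ τ w ((Ideal.absNorm w : ℝ) * X) Q q} := by
    ext q
    rw [Set.mem_setOf_eq, Set.mem_setOf_eq, ← hl6]
    exact set_iff hrepc σ τ hl0 hw Q q
  rw [hset]
  obtain ⟨hc1, hc2⟩ := hcone K σ τ hG
  have hU : ∀ b : 𝓞 K, ∃ u : (𝓞 K)ˣ, b ≠ 0 → |τ ((u * b : 𝓞 K) : K)| ≤ |σ ((u * b : 𝓞 K) : K)| ∧
      |σ ((u * b : 𝓞 K) : K)| < (3 + √5) / 2 * |τ ((u * b : 𝓞 K) : K)| := by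
    intro b
    by_cases hb : b = 0
    · exact ⟨1, fun h => absurd hb h⟩
    · obtain ⟨u, hu⟩ := hc1 b hb
      exact ⟨u, fun _ => hu⟩
  choose U hU using hU
  set A : Set (𝓞 K × 𝓞 K × 𝓞 K) := {t | t ∈ E ∧ Rep w t ∧ shp σ τ t ∈ Q} with hA
  -- properties of the triples
  have hne : ∀ t : 𝓞 K × 𝓞 K × 𝓞 K, Triple t → t.2.1 ≠ 0 := by
    intro t ht h
    apply ht.ne
    rw [h]
    ring
  have hmem : ∀ z ∈ A ×ˢ (Set.univ : Set Bool), GG σ τ w ((Ideal.absNorm w : ℝ) * X) Q (ff U z) := by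
    rintro ⟨t, e⟩ ⟨⟨htE, htw, htQ⟩, -⟩
    obtain ⟨hT, htX⟩ := hE.mem t htE
    have hb := hne t hT
    set v : (𝓞 K)ˣ := sg e * U t.2.1 with hv
    have hy := yy_unit v hT.sum
    have hff : ff U (t, e) = ((v : 𝓞 K) * t.1, (v : 𝓞 K) * t.2.1) := rfl
    rw [hff]
    have hc := hU t.2.1 hb
    have hvb : ((v : 𝓞 K) * t.2.1 : 𝓞 K) =
        ((sg e : (𝓞 K)ˣ) : 𝓞 K) * ((U t.2.1 : 𝓞 K) * t.2.1) := by
      rw [hv]
      push_cast
      ring
    obtain ⟨r1, r2, r3, r4, r5⟩ := hrad K t hT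
    have hr5 := (r5 w htw).2
    refine ⟨?_, ?_, ?_, ?_, ?_, ?_, ?_⟩
    · rw [hy]
      exact mul_ne_zero (Units.ne_zero _) hT.ne
    · rw [eq_top_iff, ← hT.cop, Ideal.span_le]
      have h1 : t.1 ∈ Ideal.span {(v : 𝓞 K) * t.1, (v : 𝓞 K) * t.2.1} := by
        rw [← Ideal.unit_mul_mem_iff_mem _ v.isUnit]
        exact Ideal.subset_span (by simp)
      have h2 : t.2.1 ∈ Ideal.span {(v : 𝓞 K) * t.1, (v : 𝓞 K) * t.2.1} := by
        rw [← Ideal.unit_mul_mem_iff_mem _ v.isUnit]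
        exact Ideal.subset_span (by simp)
      have h3 : t.2.2 = -(t.1 + t.2.1) := by linear_combination hT.sum
      intro y hy
      simp only [Set.mem_insert_iff, Set.mem_singleton_iff] at hy
      rcases hy with rfl | rfl | rfl
      · exact h1
      · exact h2
      · rw [h3]
        exact neg_mem (add_mem h1 h2)
    · rw [hy, radI_unit, span_unit]
      exact htw
    · rw [hvb, abs_sg, abs_sg]
      exact hc.1
    · rw [hvb, abs_sg, abs_sg]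
      exact hc.2
    · have hs := emb_ne σ v.ne_zero
      have ht := emb_ne τ v.ne_zero
      have e1 : σ ((v : 𝓞 K) * t.1 : 𝓞 K) / σ ((v : 𝓞 K) * t.2.1 : 𝓞 K) = σ t.1 / σ t.2.1 := by
        push_cast
        rw [map_mul, map_mul]
        exact mul_div_mul_left _ _ hs
      have e2 : τ ((v : 𝓞 K) * t.1 : 𝓞 K) / τ ((v : 𝓞 K) * t.2.1 : 𝓞 K) = τ t.1 / τ t.2.1 := by
        push_cast
        rw [map_mul, map_mul]
        exact mul_div_mul_left _ _ ht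
      rw [e1, e2]
      exact htQ
    · rw [← hnrm K σ τ hG, hy, span_unit, ← hr5]
      exact mul_le_mul_of_nonneg_left htX hN.le
  have hinj : Set.InjOn (ff U) (A ×ˢ (Set.univ : Set Bool)) := by
    rintro ⟨t, e⟩ ⟨⟨htE, -, -⟩, -⟩ ⟨s, e'⟩ ⟨⟨hsE, -, -⟩, -⟩ hts
    obtain ⟨hT, -⟩ := hE.mem t htE
    obtain ⟨hS, -⟩ := hE.mem s hsE
    have h1 : ((sg e * U t.2.1 : (𝓞 K)ˣ) : 𝓞 K) * t.1 = ((sg e' * U s.2.1 : (𝓞 K)ˣ) : 𝓞 K) * s.1 :=
      congrArg Prod.fst hts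
    have h2 : ((sg e * U t.2.1 : (𝓞 K)ˣ) : 𝓞 K) * t.2.1 =
        ((sg e' * U s.2.1 : (𝓞 K)ˣ) : 𝓞 K) * s.2.1 := congrArg Prod.snd hts
    set v : (𝓞 K)ˣ := (sg e' * U s.2.1)⁻¹ * (sg e * U t.2.1) with hv
    have hv1 : s.1 = v * t.1 := by
      rw [hv, Units.val_mul, mul_assoc, h1, ← mul_assoc, ← Units.val_mul, inv_mul_cancel]
      simp
    have hv2 : s.2.1 = v * t.2.1 := by
      rw [hv, Units.val_mul, mul_assoc, h2, ← mul_assoc, ← Units.val_mul, inv_mul_cancel]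
      simp
    have hv3 : s.2.2 = v * t.2.2 := by
      have a1 := hT.sum
      have a2 := hS.sum
      have a3 : s.2.2 = -(s.1 + s.2.1) := by linear_combination a2
      have a4 : t.2.2 = -(t.1 + t.2.1) := by linear_combination a1
      rw [a3, a4, hv1, hv2]
      ring
    have hst : s = t := hE.ineq t htE s hsE v (Prod.ext hv1 (Prod.ext hv2 hv3))
    subst hst
    have hb := hne s hS
    have h3 := mul_right_cancel₀ hb h2
    have h4 : sg e * U s.2.1 = sg e' * U s.2.1 := Units.ext h3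
    have h5 : (sg e : (𝓞 K)ˣ) = sg e' := mul_right_cancel h4
    have h6 : e = e' := by
      unfold sg at h5
      have hne1 : (1 : (𝓞 K)ˣ) ≠ -1 := by
        intro h
        have := congrArg (fun u : (𝓞 K)ˣ => (u : 𝓞 K)) h
        simp only [Units.val_one, Units.val_neg] at this
        have h7 : (2 : 𝓞 K) = 0 := by linear_combination this
        exact two_ne_zero h7
      cases e <;> cases e'
      · rfl
      · exact absurd (by simpa using h5.symm) hne1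
      · exact absurd (by simpa using h5) hne1
      · rfl
    rw [h6]
  have himg : {q | GG σ τ w ((Ideal.absNorm w : ℝ) * X) Q q} =
      ff U '' (A ×ˢ (Set.univ : Set Bool)) := by
    apply Set.eq_of_subset_of_subset
    · intro q hq
      obtain ⟨g1, g2, g3, g4, g5, g6, g7⟩ := hq
      set t0 : 𝓞 K × 𝓞 K × 𝓞 K := (q.1, q.2, -(q.1 + q.2)) with ht0
      have hsum : t0.1 + t0.2.1 + t0.2.2 = 0 := by
        rw [ht0]
        ring
      have hy0 : yy q = ((-1 : (𝓞 K)ˣ) : 𝓞 K) * (t0.1 * t0.2.1 * t0.2.2) := by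
        rw [ht0]
        unfold yy
        push_cast
        ring
      have hx0 : t0.1 * t0.2.1 * t0.2.2 ≠ 0 := by
        intro h
        apply g1
        rw [hy0, h, mul_zero]
      have hT0 : Triple t0 := by
        refine ⟨hsum, hx0, ?_⟩
        rw [eq_top_iff, ← g2, Ideal.span_le]
        intro y hy
        simp only [Set.mem_insert_iff, Set.mem_singleton_iff] at hy
        rcases hy with rfl | rfl
        · exact Ideal.subset_span (by simp [ht0])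
        · exact Ideal.subset_span (by simp [ht0])
      have hR0 : Rep w t0 := by
        unfold Pool.Agent.P8H82.JG.Rep
        rw [← radI_unit (-1) (t0.1 * t0.2.1 * t0.2.2), ← span_unit (-1) (t0.1 * t0.2.1 * t0.2.2),
          ← hy0]
        exact g3
      obtain ⟨r1, r2, r3, r4, r5⟩ := hrad K t0 hT0
      have hX0' : rad t0 ≤ X := by
        have h1 := (r5 w hR0).2
        rw [← span_unit (-1) (t0.1 * t0.2.1 * t0.2.2), ← hy0, hnrm K σ τ hG] at h1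
        have h2 : (Ideal.absNorm w : ℝ) * rad t0 ≤ (Ideal.absNorm w : ℝ) * X := by
          rw [h1]
          exact g7
        exact le_of_mul_le_mul_left h2 hN
      obtain ⟨s, hsE, u, hu⟩ := hE.full t0 hT0 hX0'
      obtain ⟨hS, hsX⟩ := hE.mem s hsE
      have hq1 : q.1 = u * s.1 := congrArg Prod.fst hu
      have hq2 : q.2 = u * s.2.1 := congrArg (fun z => z.2.1) hu
      have hb := hne s hS
      have hys := yy_unit u hS.sum
      rw [← hq1, ← hq2] at hys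
      have hys' : yy q = ((-(u ^ 3) : (𝓞 K)ˣ) : 𝓞 K) * (s.1 * s.2.1 * s.2.2) := hys
      have hRs : Rep w s := by
        unfold Pool.Agent.P8H82.JG.Rep
        rw [← radI_unit (-(u ^ 3)) (s.1 * s.2.1 * s.2.2),
          ← span_unit (-(u ^ 3)) (s.1 * s.2.1 * s.2.2), ← hys']
        exact g3
      have hss := emb_ne σ u.ne_zero
      have htt := emb_ne τ u.ne_zero
      have hsQ : shp σ τ s ∈ Q := by
        have e1 : σ q.1 / σ q.2 = σ s.1 / σ s.2.1 := by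
          rw [hq1, hq2]
          push_cast
          rw [map_mul, map_mul]
          exact mul_div_mul_left _ _ hss
        have e2 : τ q.1 / τ q.2 = τ s.1 / τ s.2.1 := by
          rw [hq1, hq2]
          push_cast
          rw [map_mul, map_mul]
          exact mul_div_mul_left _ _ htt
        rw [e1, e2] at g6
        exact g6
      -- the unit
      have hUb := hU s.2.1 hb
      have hcase := hc2 ((U s.2.1 : 𝓞 K) * s.2.1) (u * (U s.2.1)⁻¹)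
        (mul_ne_zero (Units.ne_zero _) hb) hUb.1 hUb.2
      have hub : (((u * (U s.2.1)⁻¹ : (𝓞 K)ˣ) : 𝓞 K) * ((U s.2.1 : 𝓞 K) * s.2.1)) = q.2 := by
        rw [hq2, ← mul_assoc, ← Units.val_mul, inv_mul_cancel_right]
      rw [hub] at hcase
      have hpm := hcase g4 g5
      have hpm' : ∃ e : Bool, u = sg e * U s.2.1 := by
        rcases hpm with h | h
        · exact ⟨true, by unfold sg; simpa using mul_inv_eq_iff_eq_mul.mp h⟩
        · exact ⟨false, by unfold sg; simpa using mul_inv_eq_iff_eq_mul.mp h⟩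
      obtain ⟨e, he⟩ := hpm'
      refine ⟨(s, e), ⟨⟨hsE, hRs, hsQ⟩, trivial⟩, ?_⟩
      refine Prod.ext ?_ ?_
      · change ((sg e * U s.2.1 : (𝓞 K)ˣ) : 𝓞 K) * s.1 = q.1
        rw [← he, hq1]
      · change ((sg e * U s.2.1 : (𝓞 K)ˣ) : 𝓞 K) * s.2.1 = q.2
        rw [← he, hq2]
    · rintro q ⟨z, hz, rfl⟩
      exact hmem z hz
  rw [himg, Set.ncard_image_of_injOn hinj, Set.ncard_prod]
  have : (Set.univ : Set Bool).ncard = 2 := by
    rw [Set.ncard_univ]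
    simp
  rw [this]
  push_cast
  ring

end Pool.Agent.P8H56.JG
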