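import Pool.Agent.P8H82.JG.Stm

set_option autoImplicit false

/-!
# Project JG, package BETA: the integral of the density
-/

namespace Pool.Agent.P8H56.JG

open MeasureTheory Set Pool.Agent.P8H82.JG

/-- the integrand on the unit interval -/
noncomputable def bb (x : ℝ) : ℝ := x ^ (-(2 : ℝ) / 3) * (1 - x) ^ (-(2 : ℝ) / 3)

theorem bb_symm (x : ℝ) : bb (1 - x) = bb x := by
  unfold bb
  rw [sub_sub_cancel, mul_comm]

theorem beta_bb : ProbabilityTheory.beta (1 / 3) (1 / 3) = ∫ x in (0 : ℝ)..1, bb x := by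
  rw [ProbabilityTheory.beta_eq_betaIntegralReal _ _ (by norm_num) (by norm_num)]
  unfold Complex.betaIntegral
  have h1 : (∫ x in (0 : ℝ)..1, (x : ℂ) ^ (((1 / 3 : ℝ) : ℂ) - 1) *
      (1 - (x : ℂ)) ^ (((1 / 3 : ℝ) : ℂ) - 1)) = ((∫ x in (0 : ℝ)..1, bb x : ℝ) : ℂ) := by
    rw [← intervalIntegral.integral_ofReal]
    refine intervalIntegral.integral_congr fun x hx => ?_
    rw [uIcc_of_le zero_le_one] at hx
    have e : (((1 / 3 : ℝ) : ℂ) - 1) = ((-(2 : ℝ) / 3 : ℝ) : ℂ) := by
      push_cast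
      ring
    rw [e]
    unfold bb
    push_cast
    have h2 : ((x : ℂ)) ^ ((-(2 : ℂ) / 3)) = ((x ^ (-(2 : ℝ) / 3) : ℝ) : ℂ) := by
      rw [Complex.ofReal_cpow hx.1]
      push_cast
      rfl
    have h3 : (1 - (x : ℂ)) ^ ((-(2 : ℂ) / 3)) = (((1 - x) ^ (-(2 : ℝ) / 3) : ℝ) : ℂ) := by
      rw [Complex.ofReal_cpow (by linarith [hx.2])]
      push_cast
      rfl
    rw [h2, h3]
  rw [h1, Complex.ofReal_re]

theorem bb_int_left : IntervalIntegrable bb volume 0 (1 / 2) := by
  have h1 : IntervalIntegrable (fun x : ℝ => x ^ (-(2 : ℝ) / 3)) volume 0 (1 / 2) :=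
    intervalIntegral.intervalIntegrable_rpow' (by norm_num)
  refine IntervalIntegrable.mul_continuousOn h1 ?_
  rw [uIcc_of_le (by norm_num)]
  intro x hx
  refine ContinuousAt.continuousWithinAt ?_
  refine ContinuousAt.rpow_const (by fun_prop) (Or.inl ?_)
  have := hx.2
  intro h
  linarith

theorem bb_int_right : IntervalIntegrable bb volume (1 / 2) 1 := by
  have h := bb_int_left.comp_sub_left 1
  have e : (fun x => bb (1 - x)) = bb := by
    funext x
    exact bb_symm x
  rw [e] at h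
  norm_num at h
  exact h.symm

theorem bb_int : IntegrableOn bb (Ioo 0 1) := by
  have h := bb_int_left.trans bb_int_right
  rw [intervalIntegrable_iff_integrableOn_Ioc_of_le zero_le_one] at h
  exact h.mono_set Ioo_subset_Ioc_self

theorem bb_val : ∫ x in Ioo (0 : ℝ) 1, bb x = Real.Gamma (1 / 3) ^ 2 / Real.Gamma (2 / 3) := by
  have h1 := beta_bb
  rw [intervalIntegral.integral_of_le zero_le_one, integral_Ioc_eq_integral_Ioo] at h1
  rw [← h1]
  unfold ProbabilityTheory.beta
  rw [show (1 : ℝ) / 3 + 1 / 3 = 2 / 3 by norm_num, sq]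

theorem change (f f' : ℝ → ℝ) {s : Set ℝ} (hf : f '' Ioo 0 1 = s)
    (hd : ∀ x ∈ Ioo (0 : ℝ) 1, HasDerivAt f (f' x) x) (hinj : InjOn f (Ioo 0 1))
    (he : ∀ x ∈ Ioo (0 : ℝ) 1, |f' x| * dens (f x) = bb x) :
    IntegrableOn dens s ∧ ∫ x in s, dens x = Real.Gamma (1 / 3) ^ 2 / Real.Gamma (2 / 3) := by
  have hd' : ∀ x ∈ Ioo (0 : ℝ) 1, HasDerivWithinAt f (f' x) (Ioo 0 1) x :=
    fun x hx => (hd x hx).hasDerivWithinAt
  constructor
  · rw [← hf, integrableOn_image_iff_integrableOn_abs_deriv_smul measurableSet_Ioo hd' hinj]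
    exact (integrableOn_congr_fun (fun x hx => by
      simp only [smul_eq_mul]
      exact he x hx) measurableSet_Ioo).mpr bb_int
  · rw [← hf, integral_image_eq_integral_abs_deriv_smul measurableSet_Ioo hd' hinj, ← bb_val]
    exact setIntegral_congr_fun measurableSet_Ioo fun x hx => by
      simp only [smul_eq_mul]
      exact he x hx

theorem piece2 : IntegrableOn dens (Ioo (-1) 0) ∧
    ∫ x in Ioo (-1 : ℝ) 0, dens x = Real.Gamma (1 / 3) ^ 2 / Real.Gamma (2 / 3) := by
  refine change (fun x => -x) (fun _ => -1) ?_ ?_ ?_ ?_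
  · simp
  · intro x _
    exact (hasDerivAt_id x).neg
  · intro x _ y _ h
    simpa using h
  · intro x hx
    unfold dens bb
    have h1 := hx.1
    have h2 := hx.2
    have e : |-x * (-x + 1)| = x * (1 - x) := by
      rw [abs_mul, abs_neg, abs_of_pos h1, abs_of_pos (by linarith)]
      ring
    rw [e, Real.mul_rpow h1.le (by linarith)]
    simp

theorem piece3 : IntegrableOn dens (Ioi 0) ∧
    ∫ x in Ioi (0 : ℝ), dens x = Real.Gamma (1 / 3) ^ 2 / Real.Gamma (2 / 3) := by
  refine change (fun x => x / (1 - x)) (fun x => ((1 - x) ^ 2)⁻¹) ?_ ?_ ?_ ?_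
  · ext y
    constructor
    · rintro ⟨x, ⟨h1, h2⟩, rfl⟩
      exact div_pos h1 (by linarith)
    · intro hy
      have hy0 : 0 < y := hy
      refine ⟨y / (1 + y), ⟨by positivity, ?_⟩, ?_⟩
      · rw [div_lt_one (by linarith)]
        linarith
      · simp only
        have : 1 + y ≠ 0 := by positivity
        have h : 1 - y / (1 + y) = 1 / (1 + y) := by field_simp; ring
        rw [h]
        field_simp
  · intro x hx
    have h2 : 1 - x ≠ 0 := by
      have := hx.2
      intro h
      linarith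
    have h3 : HasDerivAt (fun x : ℝ => 1 - x) (-1) x := by
      simpa using (hasDerivAt_id x).const_sub 1
    have h4 := (hasDerivAt_id x).div h3 h2
    have e : (1 * (1 - x) - id x * (-1)) / (1 - x) ^ 2 = ((1 - x) ^ 2)⁻¹ := by
      simp only [id]
      field_simp
      ring
    rw [e] at h4
    exact h4
  · intro x hx y hy h
    simp only at h
    have hx0 : 1 - x ≠ 0 := by
      have := hx.2
      intro h
      linarith
    have hy0 : 1 - y ≠ 0 := by
      have := hy.2
      intro h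
      linarith
    rw [div_eq_div_iff hx0 hy0] at h
    linarith
  · intro x hx
    unfold dens bb
    have h1 := hx.1
    have h2 : 0 < 1 - x := by
      have := hx.2
      linarith
    have e : x / (1 - x) * (x / (1 - x) + 1) = x * (1 - x) ^ (-(2 : ℝ)) := by
      rw [Real.rpow_neg h2.le, show (2 : ℝ) = ((2 : ℕ) : ℝ) by norm_num, Real.rpow_natCast]
      field_simp
      ring
    have e2 : |((1 - x) ^ 2)⁻¹| = (1 - x) ^ (-(2 : ℝ)) := by
      rw [abs_of_pos (by positivity), Real.rpow_neg h2.le,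
        show (2 : ℝ) = ((2 : ℕ) : ℝ) by norm_num, Real.rpow_natCast]
    rw [e, e2, abs_of_pos (by positivity), Real.mul_rpow h1.le (by positivity),
      ← Real.rpow_mul h2.le]
    have e3 : (1 - x) ^ (-(2 : ℝ)) * (x ^ (-(2 : ℝ) / 3) * (1 - x) ^ (-(2 : ℝ) * (-(2 : ℝ) / 3))) =
        x ^ (-(2 : ℝ) / 3) * ((1 - x) ^ (-(2 : ℝ)) * (1 - x) ^ (-(2 : ℝ) * (-(2 : ℝ) / 3))) := by
      ring
    rw [e3, ← Real.rpow_add h2]
    norm_num

theorem dens_symm (x : ℝ) : dens (-1 - x) = dens x := by
  unfold dens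
  congr 2
  ring

theorem piece1 : IntegrableOn dens (Iio (-1)) ∧
    ∫ x in Iio (-1 : ℝ), dens x = Real.Gamma (1 / 3) ^ 2 / Real.Gamma (2 / 3) := by
  have him : (fun x : ℝ => -1 - x) '' Ioi 0 = Iio (-1) := by
    rw [image_const_sub_Ioi]
    simp
  have hd' : ∀ x ∈ Ioi (0 : ℝ), HasDerivWithinAt (fun x : ℝ => -1 - x) (-1) (Ioi 0) x :=
    fun x _ => by simpa using ((hasDerivAt_id x).const_sub (-1)).hasDerivWithinAt
  have hinj : InjOn (fun x : ℝ => -1 - x) (Ioi 0) := by
    intro x _ y _ h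
    simpa using h
  constructor
  · rw [← him, integrableOn_image_iff_integrableOn_abs_deriv_smul measurableSet_Ioi hd' hinj]
    exact (integrableOn_congr_fun (fun x hx => by
      simp only [smul_eq_mul, dens_symm]
      simp) measurableSet_Ioi).mpr piece3.1
  · rw [← him, integral_image_eq_integral_abs_deriv_smul measurableSet_Ioi hd' hinj, ← piece3.2]
    exact setIntegral_congr_fun measurableSet_Ioi fun x hx => by
      simp only [smul_eq_mul, dens_symm]
      simp

/-- the package BETA -/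
theorem beta_main : S_BETA := by
  have i2 : IntegrableOn dens (Icc (-1) 0) := by
    rw [integrableOn_Icc_iff_integrableOn_Ioo]
    exact piece2.1
  have u1 : Iio (-1 : ℝ) ∪ Icc (-1) 0 = Iic 0 := Iio_union_Icc_eq_Iic (by norm_num)
  have i12 : IntegrableOn dens (Iic 0) := by
    rw [← u1]
    exact piece1.1.union i2
  have hI : Integrable dens := by
    rw [← integrableOn_univ, ← Iic_union_Ioi (a := (0 : ℝ))]
    exact i12.union piece3.1
  refine ⟨hI, ?_⟩
  rw [← setIntegral_univ, ← Iic_union_Ioi (a := (0 : ℝ)),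
    setIntegral_union (Iic_disjoint_Ioi le_rfl) measurableSet_Ioi i12 piece3.1, ← u1,
    setIntegral_union (by
      rw [Set.disjoint_left]
      intro x hx hy
      exact absurd hx (not_lt.mpr hy.1)) measurableSet_Icc piece1.1 i2, piece1.2,
    integral_Icc_eq_integral_Ioo, piece2.2, piece3.2]
  ring

end Pool.Agent.P8H56.JG
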