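import Pool.Agent.P8H56.JG.Pts

set_option autoImplicit false

/-!
# Project JG, package HT: the height of a triple
-/

namespace Pool.Agent.P8H56.JG

open NumberField IsDedekindDomain Pool.Agent.P8H82.JG

theorem hh_id {a b : ℝ} (ha : a ≠ 0) (hb : b ≠ 0) (hab : a + b ≠ 0) :
    max |a| (max |b| |-(a + b)|) ^ 3 = hh (a / b) * |a * b * (a + b)| := by
  unfold hh
  have hb' : 0 < |b| := abs_pos.mpr hb
  have e1 : |b| * max 1 (max |a / b| |a / b + 1|) = max |a| (max |b| |-(a + b)|) := by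
    rw [mul_max_of_nonneg _ _ hb'.le, mul_max_of_nonneg _ _ hb'.le, ← abs_mul, ← abs_mul,
      mul_div_cancel₀ _ hb, mul_one, abs_neg, max_left_comm]
    have : b * (a / b + 1) = a + b := by field_simp
    rw [this]
  have e2 : |a / b * (a / b + 1)| * |b| ^ 3 = |a * b * (a + b)| := by
    rw [← abs_pow, ← abs_mul]
    congr 1
    field_simp
  have h3 : |a / b * (a / b + 1)| ≠ 0 := by
    rw [abs_ne_zero]
    have : a / b * (a / b + 1) = a * (a + b) / b ^ 2 := by field_simp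
    rw [this]
    positivity
  rw [← e1, ← e2, mul_pow]
  field_simp

theorem hh_ge_one {x : ℝ} (h0 : x ≠ 0) (h1 : x + 1 ≠ 0) : 1 ≤ hh x := by
  unfold hh
  rw [le_div_iff₀ (abs_pos.mpr (mul_ne_zero h0 h1)), one_mul, abs_mul]
  set M := max 1 (max |x| |x + 1|) with hM
  have a1 : 1 ≤ M := le_max_left _ _
  have a2 : |x| ≤ M := (le_max_left _ _).trans (le_max_right _ _)
  have a3 : |x + 1| ≤ M := (le_max_right _ _).trans (le_max_right _ _)
  calc |x| * |x + 1| ≤ M * M := mul_le_mul a2 a3 (abs_nonneg _) (by linarith)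
    _ ≤ M ^ 3 := by nlinarith

theorem hh_ge {R x : ℝ} (hR : 1 ≤ R) (h0 : x ≠ 0) (h1 : x + 1 ≠ 0) (hx : x ∉ KK R) :
    R ≤ hh x := by
  have hR0 : 0 < R := by linarith
  unfold hh
  rw [le_div_iff₀ (abs_pos.mpr (mul_ne_zero h0 h1)), abs_mul]
  set M := max 1 (max |x| |x + 1|) with hM
  have a1 : 1 ≤ M := le_max_left _ _
  have a2 : |x| ≤ M := (le_max_left _ _).trans (le_max_right _ _)
  have a3 : |x + 1| ≤ M := (le_max_right _ _).trans (le_max_right _ _)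
  have hx' : |x| ≤ 1 / R ∨ |x + 1| ≤ 1 / R ∨ R ≤ |x| := by
    by_contra hcon
    push Not at hcon
    exact hx ⟨hcon.1, hcon.2.1, hcon.2.2⟩
  have hM3 : M ≤ M ^ 3 := by nlinarith [mul_self_nonneg M]
  rcases hx' with h | h | h
  · have h2 : R * |x| ≤ 1 := by
      rw [le_div_iff₀ hR0] at h
      linarith
    calc R * (|x| * |x + 1|) = (R * |x|) * |x + 1| := by ring
      _ ≤ 1 * |x + 1| := mul_le_mul_of_nonneg_right h2 (abs_nonneg _)
      _ ≤ M := by rw [one_mul]; exact a3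
      _ ≤ M ^ 3 := hM3
  · have h2 : R * |x + 1| ≤ 1 := by
      rw [le_div_iff₀ hR0] at h
      linarith
    calc R * (|x| * |x + 1|) = (R * |x + 1|) * |x| := by ring
      _ ≤ 1 * |x| := mul_le_mul_of_nonneg_right h2 (abs_nonneg _)
      _ ≤ M := by rw [one_mul]; exact a2
      _ ≤ M ^ 3 := hM3
  · calc R * (|x| * |x + 1|) ≤ M * (M * M) := by
          refine mul_le_mul (h.trans a2) ?_ (by positivity) (by linarith)
          exact mul_le_mul a2 a3 (abs_nonneg _) (by linarith)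
      _ = M ^ 3 := by ring

/-- the package HT -/
theorem ht (hnrm : S_NRM) (hcpx : S_CPX) (hrad : S_RAD) : S_HT := by
  intro K _ _ σ τ hG t w hT hw
  obtain ⟨r1, r2, r3, r4, r5⟩ := hrad K t hT
  obtain ⟨hw0, hNr⟩ := r5 w hw
  have hN1 : (1 : ℝ) ≤ Ideal.absNorm w := by
    have : Ideal.absNorm w ≠ 0 := by
      rw [Ne, Ideal.absNorm_eq_zero_iff]
      exact hw0
    exact_mod_cast Nat.one_le_iff_ne_zero.mpr this
  have hne := hT.ne
  have ht1 : t.1 ≠ 0 := fun h => hne (by rw [h]; ring)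
  have ht2 : t.2.1 ≠ 0 := fun h => hne (by rw [h]; ring)
  have ht3 : t.2.2 ≠ 0 := fun h => hne (by rw [h]; ring)
  have h3 : t.2.2 = -(t.1 + t.2.1) := by linear_combination hT.sum
  have loc : ∀ ρ : K →+* ℝ, max |ρ t.1| (max |ρ t.2.1| |ρ t.2.2|) ^ 3 =
      hh (ρ t.1 / ρ t.2.1) * |ρ ((t.1 * t.2.1 * t.2.2 : 𝓞 K) : K)| ∧
      ρ t.1 / ρ t.2.1 ≠ 0 ∧ ρ t.1 / ρ t.2.1 + 1 ≠ 0 := by
    intro ρ
    have n1 := emb_ne ρ ht1
    have n2 := emb_ne ρ ht2
    have n3 := emb_ne ρ ht3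
    have e3 : ρ (t.2.2 : K) = -(ρ t.1 + ρ t.2.1) := by
      rw [h3]
      push_cast
      rw [map_neg, map_add]
    have n3' : ρ t.1 + ρ t.2.1 ≠ 0 := by
      intro h
      rw [e3, h, neg_zero] at n3
      exact n3 rfl
    refine ⟨?_, div_ne_zero n1 n2, ?_⟩
    · push_cast
      rw [map_mul, map_mul, e3, hh_id n1 n2 n3']
      congr 1
      rw [mul_neg, abs_neg]
    · have : ρ t.1 / ρ t.2.1 + 1 = (ρ t.1 + ρ t.2.1) / ρ t.2.1 := by field_simp
      rw [this]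
      exact div_ne_zero n3' n2
  obtain ⟨l1, l2, l3⟩ := loc σ
  obtain ⟨m1, m2, m3⟩ := loc τ
  have hht : height t = max |σ t.1| (max |σ t.2.1| |σ t.2.2|) *
      max |τ t.1| (max |τ t.2.1| |τ t.2.2|) := by
    unfold height
    rw [hcpx K σ τ hG (fun φ => max ‖φ t.1‖ (max ‖φ t.2.1‖ ‖φ t.2.2‖))]
    simp
  have hsh : shp σ τ t = (σ t.1 / σ t.2.1, τ t.1 / τ t.2.1) := rfl
  have hprod : |σ ((t.1 * t.2.1 * t.2.2 : 𝓞 K) : K)| * |τ ((t.1 * t.2.1 * t.2.2 : 𝓞 K) : K)| =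
      (Ideal.absNorm w : ℝ) * rad t := by
    rw [hNr, hnrm K σ τ hG, abs_mul]
  have hmain : height t ^ 3 =
      (Ideal.absNorm w : ℝ) * hh (shp σ τ t).1 * hh (shp σ τ t).2 * rad t := by
    rw [hht, mul_pow, l1, m1, hsh]
    linear_combination (hh (σ t.1 / σ t.2.1) * hh (τ t.1 / τ t.2.1)) * hprod
  refine ⟨hmain, ?_⟩
  intro R hR hcase
  have hh1 : 1 ≤ hh (shp σ τ t).1 := hh_ge_one l2 l3
  have hh2 : 1 ≤ hh (shp σ τ t).2 := hh_ge_one m2 m3
  have key : R ≤ (Ideal.absNorm w : ℝ) * hh (shp σ τ t).1 * hh (shp σ τ t).2 := by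
    rcases hcase with h | h
    · calc R ≤ (Ideal.absNorm w : ℝ) * 1 * 1 := by linarith
        _ ≤ (Ideal.absNorm w : ℝ) * hh (shp σ τ t).1 * hh (shp σ τ t).2 := by gcongr
    · rw [Set.mem_prod, not_and_or] at h
      rcases h with h | h
      · have := hh_ge hR l2 l3 h
        calc R ≤ 1 * hh (shp σ τ t).1 * 1 := by rw [one_mul, mul_one]; exact this
          _ ≤ (Ideal.absNorm w : ℝ) * hh (shp σ τ t).1 * hh (shp σ τ t).2 := by gcongr
      · have := hh_ge hR m2 m3 h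
        calc R ≤ 1 * 1 * hh (shp σ τ t).2 := by rw [one_mul, one_mul]; exact this
          _ ≤ (Ideal.absNorm w : ℝ) * hh (shp σ τ t).1 * hh (shp σ τ t).2 := by gcongr
  rw [hmain]
  have hr0 : 0 ≤ rad t := by linarith
  refine mul_le_mul_of_nonneg_right ?_ hr0
  linarith

end Pool.Agent.P8H56.JG
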