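import Pool.Agent.P8H56.JG.Ht

set_option autoImplicit false

/-!
# Project JG, package LVL: the level sets of the height
-/

namespace Pool.Agent.P8H56.JG

open MeasureTheory Set Pool.Agent.P8H82.JG Filter Topology

theorem hh_meas : Measurable hh := by
  unfold hh
  fun_prop

theorem hh_pos {x : ℝ} (h0 : x ≠ 0) (h1 : x ≠ -1) : 0 < hh x :=
  lt_of_lt_of_le one_pos (hh_ge_one h0 fun h => h1 (by linarith))

theorem hh_cont {x : ℝ} (h0 : x ≠ 0) (h1 : x ≠ -1) : ContinuousAt hh x := by
  unfold hh
  refine ContinuousAt.div (by fun_prop) (by fun_prop) ?_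
  rw [abs_ne_zero]
  exact mul_ne_zero h0 fun h => h1 (by linarith)

theorem quad_fin {a b c : ℝ} (h : a ≠ 0 ∨ c ≠ 0) : {y : ℝ | a * y ^ 2 + b * y + c = 0}.Finite := by
  have hp : (Polynomial.C a * Polynomial.X ^ 2 + Polynomial.C b * Polynomial.X +
      Polynomial.C c : Polynomial ℝ) ≠ 0 := by
    intro hz
    rcases h with h | h
    · apply h
      have := congrArg (fun p => Polynomial.coeff p 2) hz
      simpa [Polynomial.coeff_X, Polynomial.coeff_C] using this
    · apply h
      have := congrArg (fun p => Polynomial.coeff p 0) hz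
      simpa [Polynomial.coeff_X, Polynomial.coeff_C] using this
  refine (Polynomial.finite_setOf_isRoot hp).subset ?_
  intro y hy
  have hy' : a * y ^ 2 + b * y + c = 0 := hy
  simpa [Polynomial.IsRoot] using hy'

theorem lvl_fin (c : ℝ) : {y : ℝ | y ≠ 0 ∧ y ≠ -1 ∧ hh y = c}.Finite := by
  have f1 := quad_fin (a := 1) (b := 2 - c) (c := 1) (Or.inl one_ne_zero)
  have f2 := quad_fin (a := c) (b := c) (c := 1) (Or.inr one_ne_zero)
  have f3 := quad_fin (a := 1) (b := c) (c := c) (Or.inl one_ne_zero)
  refine ((f1.union f2).union f3).subset ?_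
  rintro y ⟨h0, h1, h⟩
  have hne : |y * (y + 1)| ≠ 0 := by
    rw [abs_ne_zero]
    exact mul_ne_zero h0 fun h => h1 (by linarith)
  unfold hh at h
  rw [div_eq_iff hne] at h
  rcases lt_or_gt_of_ne h0 with hneg | hpos
  · rcases lt_or_gt_of_ne h1 with h2 | h2
    · right
      change 1 * y ^ 2 + c * y + c = 0
      have a1 : |y| = -y := abs_of_neg hneg
      have a2 : |y + 1| = -(y + 1) := abs_of_neg (by linarith)
      have a3 : max 1 (max |y| |y + 1|) = -y := by
        rw [a1, a2, max_eq_left (by linarith : -(y + 1) ≤ -y), max_eq_right (by linarith)]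
      rw [a3, abs_mul, a1, a2] at h
      have : (-y) * (1 * y ^ 2 + c * y + c) = 0 := by linear_combination h
      rcases mul_eq_zero.mp this with h' | h'
      · exact absurd (neg_eq_zero.mp h') h0
      · exact h'
    · left; right
      change c * y ^ 2 + c * y + 1 = 0
      have a1 : |y| = -y := abs_of_neg hneg
      have a2 : |y + 1| = y + 1 := abs_of_pos (by linarith)
      have a3 : max 1 (max |y| |y + 1|) = 1 := by
        rw [a1, a2]
        exact max_eq_left (max_le (by linarith) (by linarith))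
      rw [a3, abs_mul, a1, a2] at h
      linear_combination h
  · left; left
    change 1 * y ^ 2 + (2 - c) * y + 1 = 0
    have a1 : |y| = y := abs_of_pos hpos
    have a2 : |y + 1| = y + 1 := abs_of_pos (by linarith)
    have a3 : max 1 (max |y| |y + 1|) = y + 1 := by
      rw [a1, a2, max_eq_right (by linarith : y ≤ y + 1), max_eq_right (by linarith)]
    rw [a3, abs_mul, a1, a2] at h
    have : (y + 1) * (1 * y ^ 2 + (2 - c) * y + 1) = 0 := by linear_combination h
    rcases mul_eq_zero.mp this with h' | h'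
    · exact absurd h' (by positivity)
    · exact h'

theorem line1 (c : ℝ) : volume {p : ℝ × ℝ | p.1 = c} = 0 := by
  have : {p : ℝ × ℝ | p.1 = c} = {c} ×ˢ (univ : Set ℝ) := by
    ext p
    simp
  rw [this, Measure.volume_eq_prod, Measure.prod_prod]
  simp

theorem line2 (c : ℝ) : volume {p : ℝ × ℝ | p.2 = c} = 0 := by
  have : {p : ℝ × ℝ | p.2 = c} = (univ : Set ℝ) ×ˢ {c} := by
    ext p
    simp
  rw [this, Measure.volume_eq_prod, Measure.prod_prod]
  simp

/-- the good points of the level set -/
def lev (s : ℝ) : Set (ℝ × ℝ) :=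
  {p | p.1 ≠ 0 ∧ p.1 ≠ -1 ∧ p.2 ≠ 0 ∧ p.2 ≠ -1 ∧ hh p.1 * hh p.2 = s}

theorem lev_null (s : ℝ) : volume (lev s) = 0 := by
  have hm : MeasurableSet (lev s) := by
    unfold lev
    have m1 : Measurable fun p : ℝ × ℝ => hh p.1 * hh p.2 :=
      (hh_meas.comp measurable_fst).mul (hh_meas.comp measurable_snd)
    have s1 : MeasurableSet {p : ℝ × ℝ | p.1 ≠ 0} :=
      (measurable_fst (measurableSet_singleton 0)).compl
    have s2 : MeasurableSet {p : ℝ × ℝ | p.1 ≠ -1} :=
      (measurable_fst (measurableSet_singleton (-1))).compl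
    have s3 : MeasurableSet {p : ℝ × ℝ | p.2 ≠ 0} :=
      (measurable_snd (measurableSet_singleton 0)).compl
    have s4 : MeasurableSet {p : ℝ × ℝ | p.2 ≠ -1} :=
      (measurable_snd (measurableSet_singleton (-1))).compl
    exact s1.inter (s2.inter (s3.inter (s4.inter (m1 (measurableSet_singleton s)))))
  rw [Measure.volume_eq_prod, Measure.measure_prod_null hm]
  refine Filter.Eventually.of_forall fun x => ?_
  change volume (Prod.mk x ⁻¹' lev s) = 0
  refine Set.Finite.measure_zero ?_ _
  by_cases hx : x ≠ 0 ∧ x ≠ -1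
  · have hp := hh_pos hx.1 hx.2
    refine (lvl_fin (s / hh x)).subset ?_
    rintro y ⟨-, -, h3, h4, h5⟩
    refine ⟨h3, h4, ?_⟩
    rw [eq_div_iff hp.ne']
    have h6 : hh x * hh y = s := h5
    linarith
  · have : Prod.mk x ⁻¹' lev s = ∅ := by
      ext y
      simp only [mem_preimage, mem_empty_iff_false, iff_false]
      rintro ⟨h1, h2, -⟩
      exact hx ⟨h1, h2⟩
    rw [this]
    exact finite_empty

/-- the package LVL -/
theorem lvl (hbeta : S_BETA) : S_LVL := by
  intro s
  have m1 : Measurable fun p : ℝ × ℝ => hh p.1 * hh p.2 :=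
    (hh_meas.comp measurable_fst).mul (hh_meas.comp measurable_snd)
  refine ⟨measurableSet_le m1 measurable_const, ?_, ?_⟩
  · set S : Set (ℝ × ℝ) := {x | hh x.1 * hh x.2 ≤ s} with hS
    have hsub : frontier S ⊆ ((({p : ℝ × ℝ | p.1 = 0} ∪ {p | p.1 = -1}) ∪ {p | p.2 = 0}) ∪
        {p | p.2 = -1}) ∪ lev s := by
      intro p hp
      by_contra hcon
      simp only [mem_union, not_or] at hcon
      obtain ⟨⟨⟨⟨c1, c2⟩, c3⟩, c4⟩, c5⟩ := hcon
      have d1 : p.1 ≠ 0 := c1
      have d2 : p.1 ≠ -1 := c2
      have d3 : p.2 ≠ 0 := c3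
      have d4 : p.2 ≠ -1 := c4
      have d5 : hh p.1 * hh p.2 ≠ s := fun h => c5 ⟨d1, d2, d3, d4, h⟩
      have hc : ContinuousAt (fun p : ℝ × ℝ => hh p.1 * hh p.2) p := by
        refine ContinuousAt.mul ?_ ?_
        · exact ContinuousAt.comp (hh_cont d1 d2) continuousAt_fst
        · exact ContinuousAt.comp (hh_cont d3 d4) continuousAt_snd
      rcases lt_or_gt_of_ne d5 with h | h
      · have h1 : ∀ᶠ q in 𝓝 p, hh q.1 * hh q.2 < s := hc.eventually (gt_mem_nhds h)
        have h2 : p ∈ interior S := by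
          rw [mem_interior_iff_mem_nhds]
          filter_upwards [h1] with q hq
          exact hq.le
        exact hp.2 h2
      · have h1 : ∀ᶠ q in 𝓝 p, s < hh q.1 * hh q.2 := hc.eventually (lt_mem_nhds h)
        have h2 : p ∉ closure S := by
          rw [mem_closure_iff_frequently, Filter.not_frequently]
          filter_upwards [h1] with q hq hq'
          exact absurd hq (not_lt.mpr hq')
        exact h2 hp.1
    refine measure_mono_null hsub ?_
    rw [measure_union_null_iff, measure_union_null_iff, measure_union_null_iff,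
      measure_union_null_iff]
    exact ⟨⟨⟨⟨line1 0, line1 (-1)⟩, line2 0⟩, line2 (-1)⟩, lev_null s⟩
  · set R : ℝ := |s| + 2 with hR
    have hR1 : 1 ≤ R := by
      have := abs_nonneg s
      linarith
    have hR0 : 0 < R := by linarith
    have hI : Integrable (fun x : ℝ × ℝ => dens x.1 * dens x.2) := hbeta.1.mul_prod hbeta.1
    have hnn : ∀ x : ℝ, 0 ≤ dens x := fun x => Real.rpow_nonneg (abs_nonneg _) _
    rw [setIntegral_pos_iff_support_of_nonneg_ae
      (Filter.Eventually.of_forall fun x => mul_nonneg (hnn _) (hnn _)) hI.integrableOn]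
    have hbox : Ioo 0 (1 / R) ×ˢ Ioo 0 (1 / R) ⊆
        Function.support (fun x : ℝ × ℝ => dens x.1 * dens x.2) ∩
          {x : ℝ × ℝ | s < hh x.1 * hh x.2} := by
      rintro ⟨x, y⟩ ⟨⟨hx1, hx2⟩, ⟨hy1, hy2⟩⟩
      simp only at hx1 hx2 hy1 hy2
      have pos : ∀ z : ℝ, 0 < z → 0 < dens z := fun z hz => by
        unfold dens
        exact Real.rpow_pos_of_pos (abs_pos.mpr (by positivity)) _
      have big : ∀ z : ℝ, 0 < z → z < 1 / R → R ≤ hh z := by
        intro z hz hz'
        refine hh_ge hR1 hz.ne' (by positivity) ?_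
        rintro ⟨h, -⟩
        rw [abs_of_pos hz] at h
        linarith
      refine ⟨(mul_pos (pos x hx1) (pos y hy1)).ne', ?_⟩
      change s < hh x * hh y
      have b1 := big x hx1 hx2
      have b2 := big y hy1 hy2
      have b3 : s < R := by
        have := le_abs_self s
        linarith
      calc s < R := b3
        _ = R * 1 := (mul_one R).symm
        _ ≤ hh x * hh y := mul_le_mul b1 (hR1.trans b2) zero_le_one (hR0.le.trans b1)
    refine lt_of_lt_of_le ?_ (measure_mono hbox)
    rw [Measure.volume_eq_prod, Measure.prod_prod, Real.volume_Ioo]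
    have : 0 < ENNReal.ofReal (1 / R - 0) := by
      rw [ENNReal.ofReal_pos]
      simpa using hR0
    exact ENNReal.mul_pos this.ne' this.ne'

end Pool.Agent.P8H56.JG
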